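import Pool.Agent.H7.ME.Stmts

/-!
Boards ld16 and me17 (MP_fd41b2_co), row COAW: properties of the array (after helper54).
-/

set_option autoImplicit false

open Finset

namespace Pool.ME7

open Pool.Agent.H23.KT Pool.Agent.H46.KW Pool.KQ Pool.GT7 Pool.GU7 Pool.HZ7 Pool.IA7

private theorem coaw_mem {V : Type} (G : SimpleGraph V) {X : Finset V} {u y : V} :
    y ∈ non G X u ↔ y ∈ X ∧ ¬ G.Adj u y := by
  classical
  unfold non
  rw [Finset.mem_filter]

private theorem coaw_one {V : Type} [Fintype V] [DecidableEq V] {G : SimpleGraph V} {p r a : ℕ}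
    {e C C₅ : ℝ} {D : Finset V} {κ : Fin (p + 4) → V} {A : Fin (p + 4) → Fin (p + 4) → Finset V}
    (h : Arr G p r a e C C₅ D κ A) (i j k : Fin (p + 4)) (hij : i ≠ j) (hik : i ≠ k)
    (hjk : j ≠ k) : ((A i j \ A k j).card : ℝ) ≤ ((p : ℝ) + 3) * C₅ := by
  have hsub : A i j \ A k j ⊆ non G (A i j) (κ k) ∪
      ((univ.erase j).erase k).biUnion (fun l => non G (A k l) (κ j)) := by
    intro y hy
    rw [mem_sdiff] at hy
    rw [mem_union]
    by_cases hk : G.Adj (κ k) y
    · right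
      obtain ⟨l, hl⟩ := (h.nbr k y).1 hk
      have hlj : l ≠ j := by
        rintro rfl
        exact hy.2 hl
      have hlk : l ≠ k := by
        rintro rfl
        rw [h.emp] at hl
        exact absurd hl (notMem_empty _)
      rw [mem_biUnion]
      refine ⟨l, mem_erase.2 ⟨hlk, mem_erase.2 ⟨hlj, mem_univ _⟩⟩, ?_⟩
      exact (coaw_mem G).2 ⟨hl, h.ind i j (κ j) (h.mem i j hij) y hy.1⟩
    · left
      exact (coaw_mem G).2 ⟨hy.1, hk⟩
  have h1 : ((A i j \ A k j).card : ℝ) ≤ ((non G (A i j) (κ k)).card : ℝ) +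
      ∑ l ∈ (univ.erase j).erase k, ((non G (A k l) (κ j)).card : ℝ) := by
    have := (card_le_card hsub).trans ((card_union_le _ _).trans
      (Nat.add_le_add_left card_biUnion_le _))
    exact_mod_cast this
  have h2 : ∑ l ∈ (univ.erase j).erase k, ((non G (A k l) (κ j)).card : ℝ) ≤
      ((p : ℝ) + 2) * C₅ := by
    refine (sum_le_card_nsmul _ _ C₅ fun l hl => ?_).trans (le_of_eq ?_)
    · rw [mem_erase, mem_erase] at hl
      exact h.typ k j l hjk.symm hl.2.1.symm
    · rw [card_erase_of_mem (mem_erase.2 ⟨hjk.symm, mem_univ _⟩), card_erase_of_mem (mem_univ _),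
        card_univ, Fintype.card_fin, nsmul_eq_mul]
      push_cast [show p + 4 - 1 - 1 = p + 2 by omega]
      ring
  have h3 := h.typ i k j hik hjk.symm
  linarith

theorem COAW_thm : COAWStmt := by
  intro p r _ C₅ hC₅
  refine ⟨⌈2 * (((p : ℝ) + 3) * C₅)⌉₊ + 1, ?_⟩
  intro a ha V _ _ G e C D κ A he h
  refine ⟨fun i j k hij hik hjk => coaw_one h i j k hij hik hjk, ?_⟩
  intro i j k l hjl
  rw [Finset.disjoint_left]
  intro y hy hy'
  have hik : i ≠ k := by
    rintro rfl
    exact Finset.disjoint_left.1 (h.dis i j l hjl) hy hy'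
  have hij : i ≠ j := by
    rintro rfl
    rw [h.emp] at hy
    exact absurd hy (notMem_empty _)
  have hkl : k ≠ l := by
    rintro rfl
    rw [h.emp] at hy'
    exact absurd hy' (notMem_empty _)
  have h1 : G.Adj (κ i) y := (h.nbr i y).2 ⟨j, hy⟩
  have h2 : ¬ G.Adj (κ l) y := h.ind k l (κ l) (h.mem k l hkl) y hy'
  have hil : i ≠ l := by
    rintro rfl
    exact h2 h1
  have h3 := coaw_one h i l k hil hik hkl.symm
  have h4 := h.mis i j l hjl y hy
  have h5 := h.lo i l hil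
  have hsub : A i l ⊆ (A i l \ A k l) ∪ non G (A i l) y := by
    intro x hx
    by_cases hk : x ∈ A k l
    · exact mem_union_right _ ((coaw_mem G).2 ⟨hx, h.ind k l y hy' x hk⟩)
    · exact mem_union_left _ (mem_sdiff.2 ⟨hx, hk⟩)
  have h6 : ((A i l).card : ℝ) ≤ ((A i l \ A k l).card : ℝ) + ((non G (A i l) y).card : ℝ) := by
    exact_mod_cast (card_le_card hsub).trans (card_union_le _ _)
  have h7 : e1 p ≤ 1 / 16 := by
    unfold e1
    apply one_div_le_one_div_of_le (by norm_num)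
    have : (1 : ℝ) ≤ ((p : ℝ) + 3) ^ 3 := one_le_pow₀ (by linarith [(Nat.cast_nonneg p : (0:ℝ) ≤ p)])
    linarith
  have ha1 : 2 * (((p : ℝ) + 3) * C₅) < a := by
    have h8 : (⌈2 * (((p : ℝ) + 3) * C₅)⌉₊ : ℝ) + 1 ≤ a := by exact_mod_cast ha
    linarith [Nat.le_ceil (2 * (((p : ℝ) + 3) * C₅))]
  have ha0 : (0 : ℝ) ≤ a := Nat.cast_nonneg a
  have h9 : e1 p * a ≤ 1 / 16 * a := mul_le_mul_of_nonneg_right h7 ha0
  have h10 : (1 - 1 / 8) * (a : ℝ) ≤ (1 - e) * a := mul_le_mul_of_nonneg_right (by linarith) ha0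
  linarith

end Pool.ME7
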